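import Mathlib

set_option autoImplicit false
open scoped Classical

namespace Pool.Agent.Helper85.LowMult

open NumberField NumberField.Units NumberField.Units.dirichletUnitTheorem

variable (K : Type) [Field K] [NumberField K]

lemma exists_sep : ∃ η : ℝ, 0 < η ∧ ∀ u : (𝓞 K)ˣ,
    ‖logEmbedding K (Additive.ofMul u)‖ < η → u ∈ torsion K := by
  have hfin := unitLattice_inter_ball_finite K 1
  let S : Finset ℝ := insert 1 ((hfin.toFinset.filter (fun x => x ≠ 0)).image (fun x => ‖x‖))
  have hS : S.Nonempty := Finset.insert_nonempty _ _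
  obtain ⟨m, hm, hmin⟩ := Finset.exists_min_image S id hS
  have hpos : 0 < m := by
    rw [Finset.mem_insert, Finset.mem_image] at hm
    rcases hm with h | ⟨x, hx, h⟩
    · rw [h]; norm_num
    · rw [← h]
      exact norm_pos_iff.mpr (Finset.mem_filter.mp hx).2
  refine ⟨m, hpos, ?_⟩
  intro u hu
  rw [← logEmbedding_eq_zero_iff]
  by_contra hne
  have h1 : m ≤ 1 := hmin 1 (Finset.mem_insert_self _ _)
  have h2 : ‖logEmbedding K (Additive.ofMul u)‖ ∈ S := by
    apply Finset.mem_insert_of_mem
    apply Finset.mem_image_of_mem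
    rw [Finset.mem_filter, Set.Finite.mem_toFinset]
    refine ⟨⟨?_, ?_⟩, hne⟩
    · exact ⟨Additive.ofMul u, trivial, rfl⟩
    · rw [mem_closedBall_zero_iff]
      linarith
  have := hmin _ h2
  simp only [id] at this
  linarith

theorem exists_unit_count : ∃ A : ℝ, 0 < A ∧ ∃ r : ℕ, ∀ ρ : ℝ, 0 ≤ ρ →
    ∀ U : Finset (𝓞 K)ˣ, (∀ u ∈ U, ∀ w : InfinitePlace K, |Real.log (w (u : K))| ≤ ρ) →
    (U.card : ℝ) ≤ A * (ρ + 1) ^ r := by
  obtain ⟨η, hη, hsep⟩ := exists_sep K
  haveI : Fintype (torsion K) := Fintype.ofFinite _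
  let r := Fintype.card {w : InfinitePlace K // w ≠ w₀}
  let T := Fintype.card (torsion K)
  have hT : 0 < T := Fintype.card_pos
  refine ⟨T * (8 / η + 3) ^ r, by positivity, r, ?_⟩
  intro ρ hρ U hU
  let m : ℕ := ⌈4 * ρ / η⌉₊
  let k : (𝓞 K)ˣ → ({w : InfinitePlace K // w ≠ w₀} → ℤ) := fun u w =>
    ⌊logEmbedding K (Additive.ofMul u) w / (η / 2)⌋
  let box : Finset ({w : InfinitePlace K // w ≠ w₀} → ℤ) :=
    Fintype.piFinset (fun _ => Finset.Icc (-(m : ℤ)) m)
  have hcomp : ∀ u ∈ U, ∀ w, |logEmbedding K (Additive.ofMul u) w| ≤ 2 * ρ := by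
    intro u hu w
    rw [logEmbedding_component, abs_mul, Nat.abs_cast]
    have h1 : ((InfinitePlace.mult w.val : ℕ) : ℝ) ≤ 2 := by
      have : InfinitePlace.mult w.val ≤ 2 := by
        rw [InfinitePlace.mult]; split_ifs <;> norm_num
      exact_mod_cast this
    exact mul_le_mul h1 (hU u hu w.val) (abs_nonneg _) (by norm_num)
  have hcard : U.card ≤ T * box.card := by
    apply Finset.card_le_mul_card_image_of_maps_to (f := k)
    · intro u hu
      rw [Fintype.mem_piFinset]
      intro w
      have h1 := hcomp u hu w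
      have h2 : |logEmbedding K (Additive.ofMul u) w / (η / 2)| ≤ 4 * ρ / η := by
        rw [abs_div, abs_of_pos (half_pos hη)]
        rw [div_le_div_iff₀ (half_pos hη) hη]
        nlinarith
      have h3 : (4 * ρ / η) ≤ (m : ℝ) := Nat.le_ceil _
      have h4 := abs_le.mp (h2.trans h3)
      rw [Finset.mem_Icc]
      constructor
      · apply Int.le_floor.mpr
        push_cast
        exact h4.1
      · have : ((⌊logEmbedding K (Additive.ofMul u) w / (η / 2)⌋ : ℤ) : ℝ) ≤ (m : ℝ) :=
          (Int.floor_le _).trans h4.2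
        exact_mod_cast this
    · intro b _
      -- the fibre injects into the torsion group
      by_cases hemp : (U.filter (fun u => k u = b)).Nonempty
      · obtain ⟨u0, hu0⟩ := hemp
        rw [Finset.mem_filter] at hu0
        have hmem : ∀ u ∈ U.filter (fun u => k u = b), u * u0⁻¹ ∈ torsion K := by
          intro u hu
          rw [Finset.mem_filter] at hu
          apply hsep
          have hle : ‖logEmbedding K (Additive.ofMul (u * u0⁻¹))‖ ≤ η / 2 := by
            rw [pi_norm_le_iff_of_nonneg (by positivity)]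
            intro w
            rw [ofMul_mul, ofMul_inv, map_add, map_neg, Pi.add_apply, Pi.neg_apply]
            have e1 : ⌊logEmbedding K (Additive.ofMul u) w / (η / 2)⌋ =
                ⌊logEmbedding K (Additive.ofMul u0) w / (η / 2)⌋ := by
              have := congrFun (hu.2.trans hu0.2.symm) w
              exact this
            have e2 := Int.abs_sub_lt_one_of_floor_eq_floor e1
            rw [← sub_div, abs_div, abs_of_pos (half_pos hη), div_lt_one (half_pos hη)] at e2
            rw [Real.norm_eq_abs, ← sub_eq_add_neg]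
            exact e2.le
          linarith
        have : (U.filter (fun u => k u = b)).card ≤ (Finset.univ : Finset (torsion K)).card := by
          apply Finset.card_le_card_of_injOn
            (fun u => if h : u * u0⁻¹ ∈ torsion K then ⟨u * u0⁻¹, h⟩ else 1)
          · intro u _
            exact Finset.mem_coe.mpr (Finset.mem_univ _)
          · intro u hu v hv huv
            have hu' := hmem u (Finset.mem_coe.mp hu)
            have hv' := hmem v (Finset.mem_coe.mp hv)
            simp only [hu', hv', dif_pos] at huv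
            have := congrArg Subtype.val huv
            exact mul_right_cancel this
        exact this
      · rw [Finset.not_nonempty_iff_eq_empty] at hemp
        rw [hemp, Finset.card_empty]
        exact Nat.zero_le _
  have hbox : box.card = (2 * m + 1) ^ r := by
    rw [Fintype.card_piFinset]
    simp only [Int.card_Icc, Finset.prod_const]
    congr 1
    omega
  have hm : ((2 * m + 1 : ℕ) : ℝ) ≤ (8 / η + 3) * (ρ + 1) := by
    have h1 : (m : ℝ) < 4 * ρ / η + 1 := Nat.ceil_lt_add_one (by positivity)
    push_cast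
    have h2 : (8 / η + 3) * (ρ + 1) = 2 * (4 * ρ / η) + 8 / η + 3 * ρ + 3 := by
      field_simp
      ring
    rw [h2]
    have : 0 < 8 / η := by positivity
    linarith
  calc (U.card : ℝ) ≤ ((T * box.card : ℕ) : ℝ) := by exact_mod_cast hcard
    _ = T * ((2 * m + 1 : ℕ) : ℝ) ^ r := by rw [hbox]; push_cast; ring
    _ ≤ T * ((8 / η + 3) * (ρ + 1)) ^ r := by
        apply mul_le_mul_of_nonneg_left _ (Nat.cast_nonneg _)
        exact pow_le_pow_left₀ (by positivity) hm r
    _ = T * (8 / η + 3) ^ r * (ρ + 1) ^ r := by rw [mul_pow]; ring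

end Pool.Agent.Helper85.LowMult
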