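import Pool.Agent.Helper85.LowMult.Ideals
import Pool.Agent.Helper85.LowMult.UnitCount

set_option autoImplicit false
open scoped Classical

namespace Pool.Agent.Helper85.LowMult

open NumberField UniqueFactorizationMonoid

variable (K : Type) [Field K] [NumberField K]

/-- `|N z| ≥ 1` in terms of infinite places: lower bound for each place. -/
lemma log_lower (z : 𝓞 K) (hz : z ≠ 0) (X : ℝ) (hX : 1 ≤ X)
    (h : ∀ w : InfinitePlace K, w (z : K) ≤ X) (w : InfinitePlace K) :
    -(Module.finrank ℚ K * Real.log X) ≤ Real.log (w (z : K)) := by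
  have hzK : (z : K) ≠ 0 := by
    simpa using hz
  have hlogX : 0 ≤ Real.log X := Real.log_nonneg hX
  have hpos : ∀ w : InfinitePlace K, 0 < w (z : K) := fun w => InfinitePlace.pos_iff.mpr hzK
  have hle : ∀ w : InfinitePlace K, Real.log (w (z : K)) ≤ Real.log X := fun w =>
    Real.log_le_log (hpos w) (h w)
  have hN : (1 : ℝ) ≤ ∏ w : InfinitePlace K, w (z : K) ^ InfinitePlace.mult w := by
    rw [InfinitePlace.prod_eq_abs_norm]
    rw [← Algebra.coe_norm_int]
    have h1 : Algebra.norm ℤ z ≠ 0 := by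
      rw [Ne, Algebra.norm_eq_zero_iff]
      exact hz
    have h2 : (1 : ℤ) ≤ |Algebra.norm ℤ z| := Int.one_le_abs h1
    exact_mod_cast h2
  have hlog : 0 ≤ ∑ w : InfinitePlace K, (InfinitePlace.mult w : ℝ) * Real.log (w (z : K)) := by
    have := Real.log_nonneg hN
    rw [Real.log_prod (fun w _ => (pow_pos (hpos w) _).ne')] at this
    simpa [Real.log_pow] using this
  by_contra hcon
  push Not at hcon
  have hneg : Real.log (w (z : K)) < 0 := by
    have : 0 ≤ (Module.finrank ℚ K : ℝ) * Real.log X := by positivity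
    linarith
  have hm1 : (1 : ℝ) ≤ InfinitePlace.mult w := by
    have := InfinitePlace.mult_pos (w := w)
    exact_mod_cast this
  have hsum : ∑ w : InfinitePlace K, (InfinitePlace.mult w : ℝ) * Real.log (w (z : K)) ≤
      (InfinitePlace.mult w : ℝ) * Real.log (w (z : K)) +
        ∑ w' ∈ Finset.univ.erase w, (InfinitePlace.mult w' : ℝ) * Real.log X := by
    rw [← Finset.add_sum_erase _ _ (Finset.mem_univ w)]
    apply add_le_add_right
    apply Finset.sum_le_sum
    intro w' _
    exact mul_le_mul_of_nonneg_left (hle w') (Nat.cast_nonneg _)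
  have hsum2 : ∑ w' ∈ Finset.univ.erase w, (InfinitePlace.mult w' : ℝ) * Real.log X ≤
      Module.finrank ℚ K * Real.log X := by
    rw [← Finset.sum_mul]
    apply mul_le_mul_of_nonneg_right _ hlogX
    rw [← InfinitePlace.sum_mult_eq, Nat.cast_sum]
    apply Finset.sum_le_sum_of_subset_of_nonneg (Finset.erase_subset _ _)
    intro i _ _
    exact Nat.cast_nonneg _
  nlinarith

/-- the norm of an integer all of whose conjugates are bounded -/
lemma absNorm_le (T : 𝓞 K) (Y : ℝ) (hY : 0 ≤ Y) (h : ∀ w : InfinitePlace K, w (T : K) ≤ Y) :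
    (Ideal.absNorm (Ideal.span {T}) : ℝ) ≤ Y ^ (Module.finrank ℚ K) := by
  rw [Ideal.absNorm_span_singleton]
  have h1 : (((Algebra.norm ℤ T).natAbs : ℕ) : ℝ) = ∏ w : InfinitePlace K, w (T : K) ^ InfinitePlace.mult w := by
    rw [InfinitePlace.prod_eq_abs_norm, ← Algebra.coe_norm_int]
    rw [Nat.cast_natAbs]
    push_cast
    rfl
  rw [h1, ← InfinitePlace.sum_mult_eq, ← Finset.prod_pow_eq_pow_sum]
  apply Finset.prod_le_prod
  · intro w _
    exact pow_nonneg (apply_nonneg _ _) _
  · intro w _
    exact pow_le_pow_left₀ (apply_nonneg _ _) (h w) _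

variable {K}

/-- elements of given absolute value -/
theorem exists_count (φ : K →+* ℂ) (c : K →+* K)
    (hc : ∀ x, φ (c x) = (starRingEnd ℂ) (φ x)) (δ : ℝ) (hδ : 0 < δ) :
    ∃ A : ℝ, 0 < A ∧ ∀ X : ℝ, 1 ≤ X → ∀ (Z : Finset (𝓞 K)) (d : ℝ), 0 < d →
      (∀ z ∈ Z, ‖φ (z : K)‖ = d) → (∀ z ∈ Z, ∀ ψ : K →+* ℂ, ‖ψ (z : K)‖ ≤ X) →
      (Z.card : ℝ) ≤ A * X ^ δ := by
  set g := Module.finrank ℚ K with hg
  obtain ⟨A1, hA1, r, hA1'⟩ := exists_unit_count K
  have hg0 : 0 < g := Module.finrank_pos
  obtain ⟨A2, hA2, hA2'⟩ := exists_divisor_bound K (δ / (4 * g)) (by positivity)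
  -- log X ≤ X^η / η
  set η : ℝ := δ / (2 * (r + 1)) with hη
  have hη0 : 0 < η := by positivity
  refine ⟨A1 * ((g + 1) / η + 1) ^ r * A2, by positivity, ?_⟩
  intro X hX Z d hd hZ hZX
  have hX0 : 0 < X := by linarith
  have hlogX : 0 ≤ Real.log X := Real.log_nonneg hX
  by_cases hemp : Z.Nonempty
  swap
  · rw [Finset.not_nonempty_iff_eq_empty] at hemp
    rw [hemp]
    simp only [Finset.card_empty, Nat.cast_zero]
    positivity
  obtain ⟨z0, hz0⟩ := hemp
  have hne : ∀ z ∈ Z, z ≠ 0 := by
    intro z hz h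
    have := hZ z hz
    rw [h] at this
    simp at this
    exact hd.ne this
  set c' : 𝓞 K →+* 𝓞 K := RingOfIntegers.mapRingHom c with hc'
  have hTz : ∀ z ∈ Z, z * c' z = z0 * c' z0 := by
    intro z hz
    apply RingOfIntegers.ext
    apply φ.injective
    have e : ∀ z ∈ Z, φ ((z * c' z : 𝓞 K) : K) = ((d ^ 2 : ℝ) : ℂ) := by
      intro z hz
      have e1 : ((z * c' z : 𝓞 K) : K) = (z : K) * c (z : K) := rfl
      rw [e1, map_mul, hc, Complex.mul_conj, Complex.normSq_eq_norm_sq, hZ z hz]
    rw [e z hz, e z0 hz0]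
  set T : 𝓞 K := z0 * c' z0 with hT
  have hc'ne : ∀ z ∈ Z, c' z ≠ 0 := by
    intro z hz h
    have h1 : c (z : K) = 0 := by
      have := congrArg (fun x : 𝓞 K => (x : K)) h
      simpa [hc'] using this
    rw [map_eq_zero] at h1
    exact hne z hz (RingOfIntegers.ext h1)
  have hT0 : T ≠ 0 := mul_ne_zero (hne z0 hz0) (hc'ne z0 hz0)
  have hspan0 : Ideal.span {T} ≠ ⊥ := by
    rw [Ne, Ideal.span_singleton_eq_bot]
    exact hT0
  have hcard : Z.card ≤ ⌊A1 * ((g + 1) * Real.log X + 1) ^ r⌋₊ *
      (Finset.Iic (normalizedFactors (Ideal.span {T}))).card := by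
    apply Finset.card_le_mul_card_image_of_maps_to
      (f := fun z : 𝓞 K => normalizedFactors (Ideal.span {z}))
    · intro z hz
      rw [Finset.mem_Iic]
      have hz0' : Ideal.span {z} ≠ ⊥ := by
        rw [Ne, Ideal.span_singleton_eq_bot]
        exact hne z hz
      rw [← dvd_iff_normalizedFactors_le_normalizedFactors hz0' hspan0, Ideal.dvd_iff_le,
        Ideal.span_singleton_le_span_singleton]
      exact ⟨c' z, (hTz z hz).symm⟩
    · intro b _
      rw [Nat.le_floor_iff (by positivity)]
      by_cases hfe : (Z.filter (fun z => normalizedFactors (Ideal.span {z}) = b)).Nonempty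
      swap
      · rw [Finset.not_nonempty_iff_eq_empty] at hfe
        rw [hfe]
        simp only [Finset.card_empty, Nat.cast_zero]
        positivity
      obtain ⟨z1, hz1⟩ := hfe
      rw [Finset.mem_filter] at hz1
      -- choose units
      have hunit : ∀ z ∈ Z.filter (fun z => normalizedFactors (Ideal.span {z}) = b),
          ∃ u : (𝓞 K)ˣ, z1 * u = z := by
        intro z hz
        rw [Finset.mem_filter] at hz
        have hz0' : Ideal.span {z} ≠ ⊥ := by
          rw [Ne, Ideal.span_singleton_eq_bot]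
          exact hne z hz.1
        have hz1' : Ideal.span {z1} ≠ ⊥ := by
          rw [Ne, Ideal.span_singleton_eq_bot]
          exact hne z1 hz1.1
        have e : Ideal.span {z1} = Ideal.span {z} := by
          have e1 := associated_iff_eq.mp (prod_normalizedFactors hz0')
          have e2 := associated_iff_eq.mp (prod_normalizedFactors hz1')
          rw [← e1, ← e2, hz.2, hz1.2]
        rw [Ideal.span_singleton_eq_span_singleton] at e
        exact e
      choose! u hu using hunit
      have hinj : Set.InjOn u ↑(Z.filter (fun z => normalizedFactors (Ideal.span {z}) = b)) := by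
        intro x hx y hy hxy
        rw [← hu x hx, ← hu y hy, hxy]
      rw [← Finset.card_image_of_injOn hinj]
      apply hA1' _ (by positivity)
      intro v hv w
      rw [Finset.mem_image] at hv
      obtain ⟨z, hz, rfl⟩ := hv
      have e := hu z hz
      rw [Finset.mem_filter] at hz
      have hb1 : ∀ z ∈ Z, ∀ w : InfinitePlace K, w (z : K) ≤ X := by
        intro z hz w
        exact (InfinitePlace.le_iff_le _ _).mpr (hZX z hz) w
      have e2 : w (z : K) = w (z1 : K) * w ((u z : 𝓞 K) : K) := by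
        rw [← map_mul]
        congr 1
        have := congrArg (fun x : 𝓞 K => (x : K)) e
        simpa using this.symm
      have hp1 : 0 < w (z1 : K) := by
        rw [InfinitePlace.pos_iff]
        simpa using hne z1 hz1.1
      have hp2 : 0 < w ((u z : 𝓞 K) : K) := by
        rw [InfinitePlace.pos_iff]
        exact Units.coe_ne_zero (u z)
      have e3 : Real.log (w ((u z : 𝓞 K) : K)) = Real.log (w (z : K)) - Real.log (w (z1 : K)) := by
        rw [e2, Real.log_mul hp1.ne' hp2.ne']
        ring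
      have l1 := log_lower K z (hne z hz.1) X hX (hb1 z hz.1) w
      have l2 := log_lower K z1 (hne z1 hz1.1) X hX (hb1 z1 hz1.1) w
      have l3 : Real.log (w (z : K)) ≤ Real.log X := by
        apply Real.log_le_log _ (hb1 z hz.1 w)
        rw [InfinitePlace.pos_iff]
        simpa using hne z hz.1
      have l4 : Real.log (w (z1 : K)) ≤ Real.log X := Real.log_le_log hp1 (hb1 z1 hz1.1 w)
      show |Real.log (w ((u z : 𝓞 K) : K))| ≤ _
      rw [e3, abs_le]
      constructor <;> nlinarith
  -- final estimate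
  have hTle : (Ideal.absNorm (Ideal.span {T}) : ℝ) ≤ (X * X) ^ g := by
    apply absNorm_le K T (X * X) (by positivity)
    intro w
    have e1 : ((T : 𝓞 K) : K) = (z0 : K) * c (z0 : K) := rfl
    rw [e1, map_mul]
    apply mul_le_mul _ _ (apply_nonneg _ _) hX0.le
    · exact (InfinitePlace.le_iff_le _ _).mpr (hZX z0 hz0) w
    · rw [← InfinitePlace.norm_embedding_eq]
      exact hZX z0 hz0 (w.embedding.comp c)
  have hI := hA2' _ hspan0
  have hI2 : ((Finset.Iic (normalizedFactors (Ideal.span {T}))).card : ℝ) ≤ A2 * X ^ (δ / 2) := by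
    refine hI.trans ?_
    apply mul_le_mul_of_nonneg_left _ hA2.le
    calc (Ideal.absNorm (Ideal.span {T}) : ℝ) ^ (δ / (4 * g))
        ≤ ((X * X) ^ g) ^ (δ / (4 * g)) := by
          apply Real.rpow_le_rpow (by positivity) hTle (by positivity)
      _ = X ^ (δ / 2) := by
          rw [← Real.rpow_natCast, ← Real.rpow_mul (by positivity), ← sq, ← Real.rpow_natCast,
            ← Real.rpow_mul (by positivity)]
          congr 1
          have : (g : ℝ) ≠ 0 := by positivity
          field_simp
          norm_num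
  have hU : A1 * ((g + 1) * Real.log X + 1) ^ r ≤ A1 * ((g + 1) / η + 1) ^ r * X ^ (δ / 2) := by
    rw [mul_assoc]
    apply mul_le_mul_of_nonneg_left _ hA1.le
    have h1 : Real.log X ≤ X ^ η / η := Real.log_le_rpow_div hX0.le hη0
    have h2 : 1 ≤ X ^ η := Real.one_le_rpow hX hη0.le
    have h3 : ((g : ℝ) + 1) * Real.log X + 1 ≤ ((g + 1) / η + 1) * X ^ η := by
      calc ((g : ℝ) + 1) * Real.log X + 1 ≤ (g + 1) * (X ^ η / η) + X ^ η := by
            have : (0 : ℝ) ≤ (g : ℝ) + 1 := by positivity
            nlinarith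
        _ = ((g + 1) / η + 1) * X ^ η := by ring
    calc ((((g : ℝ) + 1) * Real.log X + 1)) ^ r ≤ (((g + 1) / η + 1) * X ^ η) ^ r :=
          pow_le_pow_left₀ (by positivity) h3 r
      _ = ((g + 1) / η + 1) ^ r * (X ^ η) ^ r := mul_pow _ _ _
      _ ≤ ((g + 1) / η + 1) ^ r * X ^ (δ / 2) := by
          apply mul_le_mul_of_nonneg_left _ (by positivity)
          rw [← Real.rpow_natCast, ← Real.rpow_mul hX0.le]
          apply Real.rpow_le_rpow_of_exponent_le hX
          rw [hη]
          have hr : (0 : ℝ) ≤ r := Nat.cast_nonneg r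
          rw [div_mul_eq_mul_div, div_le_div_iff₀ (by positivity) (by norm_num)]
          nlinarith
  calc (Z.card : ℝ) ≤ ((⌊A1 * ((g + 1) * Real.log X + 1) ^ r⌋₊ *
        (Finset.Iic (normalizedFactors (Ideal.span {T}))).card : ℕ) : ℝ) := by exact_mod_cast hcard
    _ = (⌊A1 * ((g + 1) * Real.log X + 1) ^ r⌋₊ : ℝ) *
        ((Finset.Iic (normalizedFactors (Ideal.span {T}))).card : ℝ) := by push_cast; ring
    _ ≤ (A1 * ((g + 1) / η + 1) ^ r * X ^ (δ / 2)) * (A2 * X ^ (δ / 2)) := by
        apply mul_le_mul _ hI2 (Nat.cast_nonneg _) (by positivity)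
        exact (Nat.floor_le (by positivity)).trans hU
    _ = A1 * ((g + 1) / η + 1) ^ r * A2 * X ^ δ := by
        have : X ^ δ = X ^ (δ / 2) * X ^ (δ / 2) := by
          rw [← Real.rpow_add hX0]
          congr 1
          ring
        rw [this]
        ring

end Pool.Agent.Helper85.LowMult
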