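import Pool.Agent.Helper85.LowMult.Basic
import Pool.Agent.Helper85.LowMult.Count

set_option autoImplicit false
open scoped Classical

namespace Pool.Agent.Helper85.LowMult.AlgebraicSets

open NumberField Pool.Agent.Helper85.LowMult

/-- the version for a field stable under complex conjugation -/
theorem aux (K : Type) [Field K] [NumberField K] (φ : K →+* ℂ) (c : K →+* K)
    (hc : ∀ x, φ (c x) = (starRingEnd ℂ) (φ x)) (C ε : ℝ) (hε : 0 < ε) (hε1 : ε ≤ 1) :
    ∃ N : ℕ, ∀ n : ℕ, N ≤ n → ∀ P : Finset (EuclideanSpace ℝ (Fin 2)), P.card = n →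
      ∀ Q : Finset (𝓞 K),
        P = Q.image (fun z : 𝓞 K => !₂[(φ (z : K)).re, (φ (z : K)).im]) →
        (∀ z ∈ Q, ∀ w ∈ Q, ∀ ψ : K →+* ℂ, ‖ψ ((z : K) - (w : K))‖ ≤ (n : ℝ) ^ C) →
        (n : ℝ) ^ (1 - ε) ≤ ((low P).card : ℝ) := by
  set C' := max C 0 with hC'
  have hC'0 : 0 ≤ C' := le_max_right _ _
  set δ : ℝ := ε / (8 * (C' + 1)) with hδ
  have hδ0 : 0 < δ := by positivity
  obtain ⟨A, hA, hA'⟩ := exists_count φ c hc δ hδ0
  obtain ⟨N0, hN0⟩ := exists_nat_gt ((2 * (A + 2) ^ 2) ^ (1 / (3 * ε / 4)))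
  refine ⟨N0 + 1, ?_⟩
  intro n hn P hP Q hPQ hQ
  have hn1 : 1 ≤ n := by omega
  have hnR : (1 : ℝ) ≤ n := by exact_mod_cast hn1
  have hnpos : (0 : ℝ) < n := by linarith
  set X : ℝ := (n : ℝ) ^ C' with hX
  have hX1 : 1 ≤ X := Real.one_le_rpow hnR hC'0
  have hXC : (n : ℝ) ^ C ≤ X := Real.rpow_le_rpow_of_exponent_le hnR (le_max_left _ _)
  set M : ℕ := ⌊A * X ^ δ⌋₊ + 2 with hM
  have hgen := low_card_ge P M (by omega) ?_
  · -- numerical part
    rw [hP] at hgen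
    have hgenR : 4 * (n : ℝ) ^ 2 ≤ (M : ℝ) ^ 2 * (4 * n * (low P).card + n) := by
      exact_mod_cast hgen
    have hXδ : X ^ δ ≤ (n : ℝ) ^ (ε / 8) := by
      rw [hX, ← Real.rpow_mul hnpos.le]
      apply Real.rpow_le_rpow_of_exponent_le hnR
      rw [hδ, ← mul_div_assoc, div_le_div_iff₀ (by positivity) (by norm_num)]
      nlinarith
    have h1 : (1 : ℝ) ≤ (n : ℝ) ^ (ε / 8) := Real.one_le_rpow hnR (by positivity)
    have hMle : (M : ℝ) ≤ (A + 2) * (n : ℝ) ^ (ε / 8) := by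
      have : ((⌊A * X ^ δ⌋₊ : ℕ) : ℝ) ≤ A * X ^ δ := Nat.floor_le (by positivity)
      rw [hM]
      push_cast
      nlinarith [mul_le_mul_of_nonneg_left hXδ hA.le]
    have hM2 : (M : ℝ) ^ 2 ≤ (A + 2) ^ 2 * (n : ℝ) ^ (ε / 4) := by
      calc (M : ℝ) ^ 2 ≤ ((A + 2) * (n : ℝ) ^ (ε / 8)) ^ 2 :=
            pow_le_pow_left₀ (Nat.cast_nonneg _) hMle 2
        _ = (A + 2) ^ 2 * (n : ℝ) ^ (ε / 4) := by
            rw [mul_pow, ← Real.rpow_natCast ((n : ℝ) ^ (ε / 8)), ← Real.rpow_mul hnpos.le]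
            congr 2
            norm_num
            ring
    set L : ℝ := ((low P).card : ℝ) with hL
    have hL0 : 0 ≤ L := Nat.cast_nonneg _
    have h2 : 4 * (n : ℝ) ^ 2 ≤ ((A + 2) ^ 2 * (n : ℝ) ^ (ε / 4)) * (4 * n * L + n) :=
      hgenR.trans (mul_le_mul_of_nonneg_right hM2 (by positivity))
    have h3 : 4 * (n : ℝ) ≤ ((A + 2) ^ 2 * (n : ℝ) ^ (ε / 4)) * (4 * L + 1) := by
      have : (n : ℝ) * (4 * n) ≤ n * (((A + 2) ^ 2 * (n : ℝ) ^ (ε / 4)) * (4 * L + 1)) := by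
        nlinarith
      exact le_of_mul_le_mul_left this hnpos
    have h4 : 2 * (A + 2) ^ 2 ≤ (n : ℝ) ^ (3 * ε / 4) := by
      have h5 : (2 * (A + 2) ^ 2) ^ (1 / (3 * ε / 4)) ≤ (n : ℝ) := by
        refine hN0.le.trans ?_
        exact_mod_cast (by omega : N0 ≤ n)
      calc 2 * (A + 2) ^ 2 = ((2 * (A + 2) ^ 2) ^ (1 / (3 * ε / 4))) ^ (3 * ε / 4) := by
            rw [← Real.rpow_mul (by positivity), one_div_mul_cancel (by positivity), Real.rpow_one]
        _ ≤ (n : ℝ) ^ (3 * ε / 4) := Real.rpow_le_rpow (by positivity) h5 (by positivity)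
    -- n = n^{1-ε} * n^{3ε/4} * n^{ε/4}
    have h6 : (n : ℝ) = (n : ℝ) ^ (1 - ε) * (n : ℝ) ^ (3 * ε / 4) * (n : ℝ) ^ (ε / 4) := by
      rw [← Real.rpow_add hnpos, ← Real.rpow_add hnpos]
      have : 1 - ε + 3 * ε / 4 + ε / 4 = 1 := by ring
      rw [this, Real.rpow_one]
    have h7 : (1 : ℝ) ≤ (n : ℝ) ^ (1 - ε) := Real.one_le_rpow hnR (by linarith)
    have hp : 0 < (n : ℝ) ^ (ε / 4) := Real.rpow_pos_of_pos hnpos _
    have h8 : 4 * ((n : ℝ) ^ (1 - ε) * (n : ℝ) ^ (3 * ε / 4)) ≤ (A + 2) ^ 2 * (4 * L + 1) := by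
      have : (n : ℝ) ^ (ε / 4) * (4 * ((n : ℝ) ^ (1 - ε) * (n : ℝ) ^ (3 * ε / 4))) ≤
          (n : ℝ) ^ (ε / 4) * ((A + 2) ^ 2 * (4 * L + 1)) := by
        calc _ = 4 * ((n : ℝ) ^ (1 - ε) * (n : ℝ) ^ (3 * ε / 4) * (n : ℝ) ^ (ε / 4)) := by ring
          _ = 4 * (n : ℝ) := by rw [← h6]
          _ ≤ _ := h3
          _ = _ := by ring
      exact le_of_mul_le_mul_left this hp
    have h9 : 4 * ((n : ℝ) ^ (1 - ε) * (2 * (A + 2) ^ 2)) ≤ (A + 2) ^ 2 * (4 * L + 1) := by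
      refine le_trans ?_ h8
      have : (n : ℝ) ^ (1 - ε) * (2 * (A + 2) ^ 2) ≤ (n : ℝ) ^ (1 - ε) * (n : ℝ) ^ (3 * ε / 4) :=
        mul_le_mul_of_nonneg_left h4 (by positivity)
      linarith
    have hA2 : 0 < (A + 2) ^ 2 := by positivity
    have h10 : 8 * (n : ℝ) ^ (1 - ε) ≤ 4 * L + 1 := by
      have : (A + 2) ^ 2 * (8 * (n : ℝ) ^ (1 - ε)) ≤ (A + 2) ^ 2 * (4 * L + 1) := by
        calc _ = 4 * ((n : ℝ) ^ (1 - ε) * (2 * (A + 2) ^ 2)) := by ring
          _ ≤ _ := h9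
      exact le_of_mul_le_mul_left this hA2
    linarith
  · -- the number of difference vectors of given length
    intro d hd
    have hpos : 0 < (pairs P d).card := by omega
    obtain ⟨x0, hx0⟩ := Finset.card_pos.mp hpos
    have hd0 : 0 < d := by
      simp only [pairs, Finset.mem_filter, Finset.mem_offDiag] at hx0
      rw [← hx0.2]
      exact dist_pos.mpr hx0.1.2.2
    let f : 𝓞 K → EuclideanSpace ℝ (Fin 2) := fun z => !₂[(φ (z : K)).re, (φ (z : K)).im]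
    have hfsub : ∀ z w : 𝓞 K, f z - f w = f (z - w) := by
      intro z w
      ext i
      fin_cases i <;> simp [f]
    have hfnorm : ∀ z : 𝓞 K, ‖f z‖ = ‖φ (z : K)‖ := by
      intro z
      rw [EuclideanSpace.norm_eq, Complex.norm_def, Complex.normSq_apply]
      congr 1
      simp [f, Fin.sum_univ_two, sq]
    let Z : Finset (𝓞 K) := ((Q ×ˢ Q).image (fun p => p.1 - p.2)).filter
      (fun z => ‖φ (z : K)‖ = d)
    have hcount := hA' X hX1 Z d hd0 (by
      intro z hz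
      simp only [Z, Finset.mem_filter] at hz
      exact hz.2) (by
      intro z hz ψ
      simp only [Z, Finset.mem_filter, Finset.mem_image, Finset.mem_product] at hz
      obtain ⟨⟨⟨a, b⟩, ⟨ha, hb⟩, rfl⟩, _⟩ := hz
      refine le_trans ?_ hXC
      have := hQ a ha b hb ψ
      simpa using this)
    calc _ ≤ (Z.image f).card := by
          apply Finset.card_le_card
          intro v hv
          obtain ⟨⟨x, y⟩, hxy, rfl⟩ :=
            (@Finset.mem_image _ _ (fun a b => Classical.propDecidable (a = b)) _ _ _).mp hv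
          simp only [pairs, Finset.mem_filter, Finset.mem_offDiag] at hxy
          obtain ⟨⟨hx, hy, _⟩, hdist⟩ := hxy
          rw [hPQ, Finset.mem_image] at hx hy
          obtain ⟨z, hz, rfl⟩ := hx
          obtain ⟨w, hw, rfl⟩ := hy
          rw [Finset.mem_image]
          refine ⟨w - z, ?_, (hfsub w z).symm⟩
          simp only [Z, Finset.mem_filter, Finset.mem_image, Finset.mem_product]
          refine ⟨⟨(w, z), ⟨hw, hz⟩, rfl⟩, ?_⟩
          rw [← hfnorm, ← hfsub, ← dist_eq_norm, dist_comm]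
          exact hdist
      _ ≤ Z.card := Finset.card_image_le
      _ ≤ ⌊A * X ^ δ⌋₊ := Nat.le_floor hcount
      _ ≤ M := by omega

/-- every number field embedded in `ℂ` lies in one stable under complex conjugation -/
theorem stable_field (K : Type) [Field K] [NumberField K] (φ : K →+* ℂ) :
    ∃ F : IntermediateField ℚ ℂ, NumberField F ∧ (∀ x ∈ F, (starRingEnd ℂ) x ∈ F) ∧
      ∀ x : K, φ x ∈ F := by
  let φa : K →ₐ[ℚ] ℂ := φ.toRatAlgHom
  let cj : ℂ →ₐ[ℚ] ℂ := (Complex.conjAe.restrictScalars ℚ : ℂ ≃ₐ[ℚ] ℂ).toAlgHom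
  have hcj : ∀ x, cj x = (starRingEnd ℂ) x := fun x => rfl
  let K1 : IntermediateField ℚ ℂ := φa.fieldRange
  let K2 : IntermediateField ℚ ℂ := (cj.comp φa).fieldRange
  have f1 : FiniteDimensional ℚ K1 :=
    (AlgEquiv.ofInjectiveField φa).toLinearEquiv.finiteDimensional
  have f2 : FiniteDimensional ℚ K2 :=
    (AlgEquiv.ofInjectiveField (cj.comp φa)).toLinearEquiv.finiteDimensional
  refine ⟨K1 ⊔ K2, ?_, ?_, ?_⟩
  · have : FiniteDimensional ℚ ↥(K1 ⊔ K2) := IntermediateField.finiteDimensional_sup K1 K2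
    exact { to_charZero := inferInstance, to_finiteDimensional := this }
  · have h : K1 ⊔ K2 ≤ (K1 ⊔ K2).comap cj := by
      apply sup_le
      · rintro x ⟨y, rfl⟩
        show cj _ ∈ K1 ⊔ K2
        exact (le_sup_right : K2 ≤ K1 ⊔ K2) ⟨y, rfl⟩
      · rintro x ⟨y, rfl⟩
        show cj _ ∈ K1 ⊔ K2
        refine (le_sup_left : K1 ≤ K1 ⊔ K2) ⟨y, ?_⟩
        show φ y = (starRingEnd ℂ) ((starRingEnd ℂ) (φ y))
        simp
    intro x hx
    exact h hx
  · intro x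
    exact (le_sup_left : K1 ≤ K1 ⊔ K2) ⟨x, rfl⟩

/-- The conjecture (at least `n^{1-ε}` low-multiplicity distances) holds for `n`-point sets whose
points, read as complex numbers, are algebraic integers of a fixed number field `K`, with all
conjugates of all differences bounded by `n^C`. -/
theorem result (K : Type) [Field K] [NumberField K] (φ : K →+* ℂ) (C ε : ℝ) (hε : 0 < ε) :
    ∃ N : ℕ, ∀ n : ℕ, N ≤ n → ∀ P : Finset (EuclideanSpace ℝ (Fin 2)), P.card = n →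
      ∀ Q : Finset (𝓞 K),
        P = Q.image (fun z : 𝓞 K => !₂[(φ (z : K)).re, (φ (z : K)).im]) →
        (∀ z ∈ Q, ∀ w ∈ Q, ∀ ψ : K →+* ℂ, ‖ψ ((z : K) - (w : K))‖ ≤ (n : ℝ) ^ C) →
        (n : ℝ) ^ (1 - ε) ≤
          (((P.offDiag.image (fun x => dist x.1 x.2)).filter
              (fun d => (P.offDiag.filter (fun x => dist x.1 x.2 = d)).card ≤ 2 * n)).card : ℝ) := by
  obtain ⟨F, hF, hstar, hφF⟩ := stable_field K φ
  let φF : K →+* F := φ.codRestrict F hφF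
  let c : F →+* F := ((starRingEnd ℂ).comp (algebraMap F ℂ)).codRestrict F
    (fun x => hstar _ x.2)
  obtain ⟨N, hN⟩ := aux F (algebraMap F ℂ) c (fun x => rfl) C (min ε 1) (lt_min hε one_pos)
    (min_le_right _ _)
  refine ⟨N + 1, ?_⟩
  intro n hn P hP Q hPQ hQ
  have hnR : (1 : ℝ) ≤ n := by exact_mod_cast (by omega : 1 ≤ n)
  have h := hN n (by omega) P hP (Q.image (RingOfIntegers.mapRingHom φF)) ?_ ?_
  · refine le_trans ?_ (h.trans_eq ?_)
    · apply Real.rpow_le_rpow_of_exponent_le hnR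
      linarith [min_le_left ε 1]
    · unfold low
      rw [hP]
  · rw [hPQ, Finset.image_image]
    rfl
  · intro z hz w hw ψ
    rw [Finset.mem_image] at hz hw
    obtain ⟨z, hz, rfl⟩ := hz
    obtain ⟨w, hw, rfl⟩ := hw
    have := hQ z hz w hw (ψ.comp φF)
    rw [RingOfIntegers.mapRingHom_apply, RingOfIntegers.mapRingHom_apply, ← map_sub]
    exact this

end Pool.Agent.Helper85.LowMult.AlgebraicSets
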