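import Mathlib

set_option autoImplicit false
open scoped Classical

namespace Pool.Agent.Helper85.LowMult

variable {E : Type*} [NormedAddCommGroup E] [InnerProductSpace ℝ E]

/-- all ordered pairs at distance `d` -/
noncomputable def pairs (P : Finset E) (d : ℝ) : Finset (E × E) :=
  P.offDiag.filter (fun x => dist x.1 x.2 = d)

/-- the low multiplicity distances of `P` -/
noncomputable def low (P : Finset E) : Finset ℝ :=
  (P.offDiag.image (fun x => dist x.1 x.2)).filter
    (fun d => (P.offDiag.filter (fun x => dist x.1 x.2 = d)).card ≤ 2 * P.card)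

/-- ordered pairs at distance larger than `d` -/
noncomputable def far (P : Finset E) (d : ℝ) : Finset (E × E) :=
  P.offDiag.filter (fun x => d < dist x.1 x.2)

lemma far_card_le (P : Finset E) (d : ℝ)
    (hd : ∀ d' > d, (pairs P d').card ≤ 2 * P.card) :
    (far P d).card ≤ 2 * P.card * (low P).card := by
  apply Finset.card_le_mul_card_image_of_maps_to (f := fun x => dist x.1 x.2)
  · intro x hx
    simp only [far, Finset.mem_filter] at hx
    simp only [low, Finset.mem_filter, Finset.mem_image]
    exact ⟨⟨x, hx.1, rfl⟩, hd _ hx.2⟩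
  · intro b hb
    simp only [low, Finset.mem_filter] at hb
    refine le_trans (Finset.card_le_card ?_) hb.2
    intro x hx
    simp only [far, Finset.mem_filter] at hx ⊢
    exact ⟨hx.1.1, hx.2⟩

/-- the translation trick -/
lemma translate_card (P : Finset E) (v : E) :
    (P.filter (fun x => x + v ∈ P)).offDiag.card ≤ 2 * (far P ‖v‖).card := by
  set A := P.filter (fun x => x + v ∈ P) with hA
  let g : E × E → E × E := fun p =>
    if 0 ≤ inner ℝ (p.2 - p.1) v then (p.1, p.2 + v) else (p.2, p.1 + v)
  apply Finset.card_le_mul_card_image_of_maps_to (f := g)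
  · rintro ⟨a, b⟩ hab
    rw [Finset.mem_offDiag] at hab
    obtain ⟨ha, hb, hne⟩ := hab
    simp only at ha hb hne
    rw [hA, Finset.mem_filter] at ha hb
    have key : ∀ a b : E, a ∈ P → b + v ∈ P → a ≠ b → 0 ≤ inner ℝ (b - a) v →
        (a, b + v) ∈ far P ‖v‖ := by
      intro a b ha hb hne hin
      have h1 : ‖v‖ < dist a (b + v) := by
        rw [dist_comm, dist_eq_norm]
        have e : b + v - a = (b - a) + v := by abel
        rw [e]
        have h2 : ‖(b - a) + v‖ ^ 2 = ‖b - a‖ ^ 2 + 2 * inner ℝ (b - a) v + ‖v‖ ^ 2 :=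
          norm_add_sq_real _ _
        have h3 : 0 < ‖b - a‖ := norm_pos_iff.mpr (sub_ne_zero.mpr (Ne.symm hne))
        have h4 : ‖v‖ ^ 2 < ‖(b - a) + v‖ ^ 2 := by
          rw [h2]
          nlinarith [sq_nonneg ‖b - a‖, mul_pos h3 h3]
        exact lt_of_pow_lt_pow_left₀ 2 (norm_nonneg _) h4
      simp only [far, Finset.mem_filter, Finset.mem_offDiag]
      refine ⟨⟨ha, hb, ?_⟩, h1⟩
      intro h
      rw [← h, dist_self] at h1
      exact absurd (norm_nonneg v) (not_le.mpr h1)
    by_cases hin : 0 ≤ inner ℝ (b - a) v
    · have : g (a, b) = (a, b + v) := by simp only [g, hin, if_true]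
      rw [this]
      exact key a b ha.1 hb.2 hne hin
    · have : g (a, b) = (b, a + v) := by simp only [g, hin, if_false]
      rw [this]
      refine key b a hb.1 ha.2 (Ne.symm hne) ?_
      have : inner ℝ (a - b) v = - inner ℝ (b - a) v := by
        rw [← inner_neg_left, neg_sub]
      rw [this]
      linarith
  · rintro ⟨x, y⟩ _
    have : (A.offDiag.filter (fun a => g a = (x, y))) ⊆ {(x, y - v), (y - v, x)} := by
      rintro ⟨a, b⟩ hab
      rw [Finset.mem_filter] at hab
      have h := hab.2
      simp only [g] at h
      rw [Finset.mem_insert, Finset.mem_singleton]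
      split_ifs at h
      · left
        rw [Prod.mk.injEq] at h ⊢
        exact ⟨h.1, by rw [← h.2]; abel⟩
      · right
        rw [Prod.mk.injEq] at h ⊢
        exact ⟨by rw [← h.2]; abel, h.1⟩
    exact le_trans (Finset.card_le_card this) Finset.card_le_two

/-- **General inequality.** If every distance realised by more than `|P|` unordered pairs
(i.e. more than `2 |P|` ordered pairs) is realised by at most `M` difference vectors, then the
number `L` of low-multiplicity distances satisfies `4 n² ≤ M² (4 n L + n)`. -/
theorem low_card_ge (P : Finset E) (M : ℕ) (hM2 : 2 ≤ M)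
    (hM : ∀ d, 2 * P.card < (pairs P d).card →
      ((pairs P d).image (fun x => x.2 - x.1)).card ≤ M) :
    4 * P.card ^ 2 ≤ M ^ 2 * (4 * P.card * (low P).card + P.card) := by
  set n := P.card with hn
  by_cases hex : ∃ d, 2 * n < (pairs P d).card
  · -- largest high distance
    let H : Finset ℝ := (P.offDiag.image (fun x => dist x.1 x.2)).filter
      (fun d => 2 * n < (pairs P d).card)
    have hH : H.Nonempty := by
      obtain ⟨d, hd⟩ := hex
      have hpos : 0 < (pairs P d).card := by omega
      obtain ⟨x, hx⟩ := Finset.card_pos.mp hpos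
      refine ⟨d, ?_⟩
      simp only [H, Finset.mem_filter, Finset.mem_image]
      simp only [pairs, Finset.mem_filter] at hx
      exact ⟨⟨x, hx.1, hx.2⟩, hd⟩
    obtain ⟨d, hdH, hdmax⟩ := Finset.exists_max_image H id hH
    simp only [H, Finset.mem_filter, Finset.mem_image] at hdH
    obtain ⟨_, hd2⟩ := hdH
    have hfar : ∀ d' > d, (pairs P d').card ≤ 2 * n := by
      intro d' hd'
      by_contra hcon
      push Not at hcon
      have hpos : 0 < (pairs P d').card := by omega
      obtain ⟨x, hx⟩ := Finset.card_pos.mp hpos
      simp only [pairs, Finset.mem_filter] at hx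
      have : d' ∈ H := by
        simp only [H, Finset.mem_filter, Finset.mem_image]
        exact ⟨⟨x, hx.1, hx.2⟩, hcon⟩
      have := hdmax d' this
      simp only [id] at this
      linarith
    have hF := far_card_le P d hfar
    -- popular difference
    set D := (pairs P d).image (fun x => x.2 - x.1) with hD
    have hDne : D.Nonempty := by
      have hpos : 0 < (pairs P d).card := by omega
      obtain ⟨x, hx⟩ := Finset.card_pos.mp hpos
      exact ⟨x.2 - x.1, Finset.mem_image_of_mem _ hx⟩
    obtain ⟨v, hvD, hvmax⟩ := Finset.exists_max_image D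
      (fun v => ((pairs P d).filter (fun x => x.2 - x.1 = v)).card) hDne
    have h1 : (pairs P d).card ≤
        ((pairs P d).filter (fun x => x.2 - x.1 = v)).card * D.card :=
      Finset.card_le_mul_card_image _ _ (fun b hb => hvmax b hb)
    have hnormv : ‖v‖ = d := by
      rw [hD, Finset.mem_image] at hvD
      obtain ⟨x, hx, rfl⟩ := hvD
      simp only [pairs, Finset.mem_filter] at hx
      rw [← hx.2, dist_comm, dist_eq_norm]
    have h2 : ((pairs P d).filter (fun x => x.2 - x.1 = v)).card ≤
        (P.filter (fun x => x + v ∈ P)).card := by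
      apply Finset.card_le_card_of_injOn (fun x => x.1)
      · rintro ⟨x, y⟩ hx
        simp only [pairs, Finset.coe_filter, Finset.mem_filter, Finset.mem_offDiag,
          Set.mem_setOf_eq] at hx ⊢
        obtain ⟨⟨⟨hx1, hx2, _⟩, _⟩, hxy⟩ := hx
        refine ⟨hx1, ?_⟩
        rw [← hxy]
        simpa using hx2
      · rintro ⟨x, y⟩ hx ⟨x', y'⟩ hx' h
        simp only [Finset.coe_filter, Set.mem_setOf_eq] at hx hx' h
        rw [Prod.mk.injEq]
        refine ⟨h, ?_⟩
        have e1 : y = v + x := by rw [← hx.2]; abel
        have e2 : y' = v + x' := by rw [← hx'.2]; abel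
        rw [e1, e2, h]
    have h3 := translate_card P v
    rw [hnormv, Finset.offDiag_card] at h3
    set a := (P.filter (fun x => x + v ∈ P)).card with ha
    have han : a ≤ n := Finset.card_filter_le _ _
    have hDM : D.card ≤ M := hM d hd2
    have h4 : 2 * n < a * M := by
      calc 2 * n < (pairs P d).card := hd2
        _ ≤ _ := h1
        _ ≤ a * M := Nat.mul_le_mul h2 hDM
    have h5 : a * a ≤ 4 * n * (low P).card + n := by
      have : a * a - a ≤ 2 * (2 * n * (low P).card) := h3.trans (Nat.mul_le_mul_left 2 hF)
      have h6 : a * a ≤ 2 * (2 * n * (low P).card) + a := by omega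
      calc a * a ≤ 2 * (2 * n * (low P).card) + a := h6
        _ ≤ 4 * n * (low P).card + n := by nlinarith
    calc 4 * n ^ 2 = (2 * n) * (2 * n) := by ring
      _ ≤ (a * M) * (a * M) := Nat.mul_le_mul h4.le h4.le
      _ = M ^ 2 * (a * a) := by ring
      _ ≤ M ^ 2 * (4 * n * (low P).card + n) := Nat.mul_le_mul_left _ h5
  · push Not at hex
    -- all distances are low
    have h1 : (P.offDiag).card ≤ 2 * n * (low P).card := by
      apply Finset.card_le_mul_card_image_of_maps_to (f := fun x => dist x.1 x.2)
      · intro x hx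
        simp only [low, Finset.mem_filter, Finset.mem_image]
        exact ⟨⟨x, hx, rfl⟩, hex _⟩
      · intro b _
        exact hex b
    rw [Finset.offDiag_card] at h1
    have h2 : n * n ≤ 2 * n * (low P).card + n := by
      have : n * n - n ≤ 2 * n * (low P).card := h1
      omega
    have h3 : 4 ≤ M ^ 2 := by nlinarith
    calc 4 * n ^ 2 = 4 * (n * n) := by ring
      _ ≤ M ^ 2 * (n * n) := Nat.mul_le_mul_right _ h3
      _ ≤ M ^ 2 * (4 * n * (low P).card + n) := by
          apply Nat.mul_le_mul_left
          nlinarith

end Pool.Agent.Helper85.LowMult
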