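import Mathlib

set_option autoImplicit false
open scoped Classical

namespace Pool.Agent.Helper85.LowMult

open NumberField UniqueFactorizationMonoid

/-- `e + 1 ≤ C₀ 2^{δ e}` -/
lemma exists_C0 (δ : ℝ) (hδ : 0 < δ) :
    ∃ C0 : ℝ, 1 ≤ C0 ∧ ∀ (e q : ℕ), 2 ≤ q → ((e : ℝ) + 1) ≤ C0 * ((q : ℝ) ^ e) ^ δ := by
  have hl : 0 < δ * Real.log 2 := mul_pos hδ (Real.log_pos (by norm_num))
  refine ⟨1 + 1 / (δ * Real.log 2), by linarith [one_div_pos.mpr hl], ?_⟩
  intro e q hq
  have hq' : (2 : ℝ) ≤ q := by exact_mod_cast hq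
  have h1 : ((2 : ℝ) ^ e) ^ δ ≤ ((q : ℝ) ^ e) ^ δ := by
    apply Real.rpow_le_rpow (by positivity) _ hδ.le
    exact pow_le_pow_left₀ (by norm_num) hq' e
  have h2 : 1 + e * (δ * Real.log 2) ≤ ((2 : ℝ) ^ e) ^ δ := by
    rw [← Real.rpow_natCast, ← Real.rpow_mul (by norm_num), Real.rpow_def_of_pos (by norm_num)]
    have := Real.add_one_le_exp (Real.log 2 * (e * δ))
    nlinarith
  have h3 : 0 ≤ 1 + 1 / (δ * Real.log 2) := by positivity
  calc ((e : ℝ) + 1) ≤ (1 + 1 / (δ * Real.log 2)) * (1 + e * (δ * Real.log 2)) := by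
        have h4 : (1 / (δ * Real.log 2)) * (e * (δ * Real.log 2)) = e := by
          field_simp
        have h5 : 0 ≤ 1 / (δ * Real.log 2) := by positivity
        have h6 : 0 ≤ (e : ℝ) * (δ * Real.log 2) := by positivity
        nlinarith
    _ ≤ _ := mul_le_mul_of_nonneg_left (h2.trans h1) h3

/-- `e + 1 ≤ q^{δ e}` for `q` large -/
lemma exists_B (δ : ℝ) (hδ : 0 < δ) :
    ∃ B : ℕ, ∀ (e q : ℕ), B ≤ q → ((e : ℝ) + 1) ≤ ((q : ℝ) ^ e) ^ δ := by
  refine ⟨⌈(2 : ℝ) ^ (1 / δ)⌉₊, ?_⟩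
  intro e q hq
  have hq' : (2 : ℝ) ^ (1 / δ) ≤ q := (Nat.le_ceil _).trans (by exact_mod_cast hq)
  have h1 : ((2 : ℝ) ^ e) ≤ ((q : ℝ) ^ e) ^ δ := by
    calc ((2 : ℝ) ^ e) = (((2 : ℝ) ^ (1 / δ)) ^ e) ^ δ := by
          rw [← Real.rpow_natCast, ← Real.rpow_natCast, ← Real.rpow_mul (by positivity),
            ← Real.rpow_mul (by positivity)]
          congr 1
          field_simp
      _ ≤ _ := by
          apply Real.rpow_le_rpow (by positivity) _ hδ.le
          exact pow_le_pow_left₀ (by positivity) hq' e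
  have h2 : ((e : ℝ) + 1) ≤ (2 : ℝ) ^ e := by
    have := Nat.lt_two_pow_self (n := e)
    exact_mod_cast this
  exact h2.trans h1

variable (K : Type) [Field K] [NumberField K]

/-- the divisor bound for ideals of a number field -/
theorem exists_divisor_bound (δ : ℝ) (hδ : 0 < δ) :
    ∃ C : ℝ, 0 < C ∧ ∀ I : Ideal (𝓞 K), I ≠ ⊥ →
      ((Finset.Iic (normalizedFactors I)).card : ℝ) ≤ C * (Ideal.absNorm I : ℝ) ^ δ := by
  obtain ⟨C0, hC0, hC0'⟩ := exists_C0 δ hδ
  obtain ⟨B, hB⟩ := exists_B δ hδ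
  have hfin : {J : Ideal (𝓞 K) | Ideal.absNorm J ≤ B}.Finite := Ideal.finite_setOfPred_absNorm_le B
  refine ⟨C0 ^ hfin.toFinset.card, by positivity, ?_⟩
  intro I hI
  set s := normalizedFactors I with hs
  have hprod : s.prod = I := by
    have := prod_normalizedFactors_eq (a := I) hI
    rw [hs]
    have h2 := associated_iff_eq.mp (prod_normalizedFactors hI)
    exact h2
  have hnorm : (Ideal.absNorm I : ℝ) = ∏ p ∈ s.toFinset, ((Ideal.absNorm p : ℝ) ^ (s.count p)) := by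
    rw [← hprod, Finset.prod_multiset_count, map_prod, Nat.cast_prod]
    apply Finset.prod_congr rfl
    intro p _
    rw [map_pow, Nat.cast_pow]
  have hge2 : ∀ p ∈ s.toFinset, 2 ≤ Ideal.absNorm p := by
    intro p hp
    rw [Multiset.mem_toFinset] at hp
    have hpp : Prime p := prime_of_normalized_factor p hp
    have h0 : Ideal.absNorm p ≠ 0 := by
      rw [Ne, Ideal.absNorm_eq_zero_iff]
      exact hpp.ne_zero
    have h1 : Ideal.absNorm p ≠ 1 := by
      rw [Ne, Ideal.absNorm_eq_one_iff]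
      intro h
      exact hpp.not_isUnit (by rw [h, ← Ideal.one_eq_top]; exact isUnit_one)
    omega
  rw [Multiset.card_Iic, Nat.cast_prod, hnorm, ← Real.finsetProd_rpow _ _ (fun i _ => by positivity)]
  have step : ∀ p ∈ s.toFinset, (((s.count p + 1 : ℕ)) : ℝ) ≤
      (if Ideal.absNorm p ≤ B then C0 else 1) * ((Ideal.absNorm p : ℝ) ^ (s.count p)) ^ δ := by
    intro p hp
    push_cast
    split_ifs with h
    · exact hC0' _ _ (hge2 p hp)
    · rw [one_mul]
      exact hB _ _ (by omega)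
  calc ∏ p ∈ s.toFinset, (((s.count p + 1 : ℕ)) : ℝ)
      ≤ ∏ p ∈ s.toFinset, ((if Ideal.absNorm p ≤ B then C0 else 1) *
          ((Ideal.absNorm p : ℝ) ^ (s.count p)) ^ δ) :=
        Finset.prod_le_prod (fun i _ => by positivity) step
    _ = (∏ p ∈ s.toFinset, (if Ideal.absNorm p ≤ B then C0 else 1)) *
        ∏ p ∈ s.toFinset, ((Ideal.absNorm p : ℝ) ^ (s.count p)) ^ δ := Finset.prod_mul_distrib
    _ ≤ C0 ^ hfin.toFinset.card *
        ∏ p ∈ s.toFinset, ((Ideal.absNorm p : ℝ) ^ (s.count p)) ^ δ := by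
        apply mul_le_mul_of_nonneg_right
        · rw [Finset.prod_ite, Finset.prod_const_one, mul_one, Finset.prod_const]
          apply pow_le_pow_right₀ hC0
          apply Finset.card_le_card
          intro p hp
          rw [Finset.mem_filter] at hp
          rw [Set.Finite.mem_toFinset]
          exact hp.2
        · exact Finset.prod_nonneg (fun i _ => by positivity)

end Pool.Agent.Helper85.LowMult
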