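import Pool.Agent.Helper85.LowMult.Basic

set_option autoImplicit false
open scoped Classical

namespace Pool.Agent.Helper85.LowMult

/-- two complex numbers of the same modulus -/
lemma norm_sub_le_arg (a b : ℂ) (d : ℝ) (ha : ‖a‖ = d) (hb : ‖b‖ = d) :
    ‖a - b‖ ≤ d * |a.arg - b.arg| := by
  have h1 : a = d * Complex.exp (Complex.I * a.arg) := by
    conv_lhs => rw [← Complex.norm_mul_exp_arg_mul_I a]
    rw [ha, mul_comm (a.arg : ℂ)]
  have h2 : b = d * Complex.exp (Complex.I * b.arg) := by
    conv_lhs => rw [← Complex.norm_mul_exp_arg_mul_I b]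
    rw [hb, mul_comm (b.arg : ℂ)]
  have hd : 0 ≤ d := ha ▸ norm_nonneg a
  have h3 : a - b = d * Complex.exp (Complex.I * b.arg) *
      (Complex.exp (Complex.I * ((a.arg - b.arg : ℝ) : ℂ)) - 1) := by
    rw [mul_sub, mul_one, mul_assoc, ← Complex.exp_add]
    have : Complex.I * (b.arg : ℂ) + Complex.I * ((a.arg - b.arg : ℝ) : ℂ) = Complex.I * a.arg := by
      push_cast
      ring
    rw [this, ← h1, ← h2]
  rw [h3, norm_mul, norm_mul]
  have h4 : ‖Complex.exp (Complex.I * (b.arg : ℂ))‖ = 1 := by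
    rw [mul_comm]
    exact Complex.norm_exp_ofReal_mul_I _
  rw [h4, mul_one, Complex.norm_real, Real.norm_eq_abs, abs_of_nonneg hd]
  exact mul_le_mul_of_nonneg_left Real.norm_exp_I_mul_ofReal_sub_one_le hd

/-- If two edges `(x, x + v)`, `(y, y + w)` of the same length `d` have
`‖y - x‖ > ‖v - w‖`, then one of the cross pairs is longer than `d`. -/
lemma cross_pair {E : Type*} [NormedAddCommGroup E] [InnerProductSpace ℝ E]
    (x y v w : E) (d : ℝ) (hv : ‖v‖ = d) (hw : ‖w‖ = d) (h : ‖v - w‖ < ‖y - x‖) :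
    d < ‖y + w - x‖ ∨ d < ‖x + v - y‖ := by
  by_contra hcon
  push Not at hcon
  obtain ⟨h1, h2⟩ := hcon
  set z := y - x with hz
  have e1 : y + w - x = z + w := by rw [hz]; abel
  have e2 : x + v - y = v - z := by rw [hz]; abel
  rw [e1] at h1
  rw [e2] at h2
  have hd : 0 ≤ d := hv ▸ norm_nonneg v
  have n1 : ‖z + w‖ ^ 2 ≤ d ^ 2 := pow_le_pow_left₀ (norm_nonneg _) h1 2
  have n2 : ‖v - z‖ ^ 2 ≤ d ^ 2 := pow_le_pow_left₀ (norm_nonneg _) h2 2
  rw [norm_add_sq_real, hw] at n1
  rw [norm_sub_sq_real, hv] at n2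
  have n3 : ‖z‖ ^ 2 ≤ inner ℝ z (v - w) := by
    rw [inner_sub_right, real_inner_comm v z]
    linarith
  have n4 : inner ℝ z (v - w) ≤ ‖z‖ * ‖v - w‖ := real_inner_le_norm _ _
  have hz0 : 0 < ‖z‖ := lt_of_le_of_lt (norm_nonneg _) h
  nlinarith

/-- a planar vector as a complex number -/
noncomputable def toC (v : EuclideanSpace ℝ (Fin 2)) : ℂ := ⟨v 0, v 1⟩

lemma toC_sub (v w : EuclideanSpace ℝ (Fin 2)) : toC (v - w) = toC v - toC w := by
  apply Complex.ext <;> simp [toC]

lemma norm_toC (v : EuclideanSpace ℝ (Fin 2)) : ‖toC v‖ = ‖v‖ := by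
  rw [EuclideanSpace.norm_eq, Complex.norm_def, Complex.normSq_apply]
  congr 1
  simp [toC, Fin.sum_univ_two, sq]

/-- main counting inequality: `M` edges in a common sector -/
lemma sector_bound (P : Finset (EuclideanSpace ℝ (Fin 2))) (d β : ℝ) (k h : ℕ)
    (hk : ∀ x ∈ P, (P.filter (fun y => dist x y = d)).card ≤ k)
    (hh : ∀ x ∈ P, (P.filter (fun y => dist x y ≤ β)).card ≤ h)
    (S : Finset (EuclideanSpace ℝ (Fin 2) × EuclideanSpace ℝ (Fin 2)))
    (hS : S ⊆ pairs P d)
    (hSβ : ∀ e ∈ S, ∀ e' ∈ S, ‖(e.2 - e.1) - (e'.2 - e'.1)‖ ≤ β) :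
    S.card * S.card ≤ S.card * (h * k) + 2 * (k * k) * (far P d).card := by
  -- good pairs of edges
  let G := (S ×ˢ S).filter (fun p => β < dist p.1.1 p.2.1)
  let Bd := (S ×ˢ S).filter (fun p => ¬ β < dist p.1.1 p.2.1)
  have hsplit : S.card * S.card = G.card + Bd.card := by
    rw [← Finset.card_product, ← Finset.card_filter_add_card_filter_not
      (s := S ×ˢ S) (fun p => β < dist p.1.1 p.2.1)]
  have hSmem : ∀ e ∈ S, e.1 ∈ P ∧ e.2 ∈ P ∧ dist e.1 e.2 = d := by
    intro e he
    have := hS he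
    simp only [pairs, Finset.mem_filter, Finset.mem_offDiag] at this
    exact ⟨this.1.1, this.1.2.1, this.2⟩
  have hB : Bd.card ≤ (h * k) * S.card := by
    apply Finset.card_le_mul_card_image_of_maps_to (f := fun p => p.1)
    · intro p hp
      simp only [Bd, Finset.mem_filter, Finset.mem_product] at hp
      exact hp.1.1
    · intro e he
      -- partners of e
      have : (Bd.filter (fun p => p.1 = e)).card ≤
          k * (P.filter (fun y => dist e.1 y ≤ β)).card := by
        apply Finset.card_le_mul_card_image_of_maps_to (f := fun p => p.2.1)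
        · rintro ⟨p1, p2⟩ hp
          simp only [Bd, Finset.mem_filter, Finset.mem_product, not_lt] at hp ⊢
          obtain ⟨⟨⟨_, h2⟩, h3⟩, h4⟩ := hp
          subst h4
          exact ⟨(hSmem _ h2).1, h3⟩
        · intro y hy
          rw [Finset.mem_filter] at hy
          refine le_trans ?_ (hk y hy.1)
          apply Finset.card_le_card_of_injOn (fun p => p.2.2)
          · rintro ⟨p1, p2⟩ hp
            simp only [Bd, Finset.coe_filter, Finset.mem_filter, Finset.mem_product,
              Set.mem_ofPred_eq] at hp ⊢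
            obtain ⟨⟨⟨⟨_, h2⟩, _⟩, _⟩, h5⟩ := hp
            subst h5
            exact ⟨(hSmem _ h2).2.1, (hSmem _ h2).2.2⟩
          · rintro ⟨p1, p2⟩ hp ⟨q1, q2⟩ hq hpq
            simp only [Finset.coe_filter, Finset.mem_filter, Set.mem_ofPred_eq] at hp hq hpq
            obtain ⟨⟨_, h2⟩, h3⟩ := hp
            obtain ⟨⟨_, h5⟩, h6⟩ := hq
            rw [Prod.mk.injEq]
            refine ⟨h2.trans h5.symm, ?_⟩
            exact Prod.ext (h3.trans h6.symm) hpq
      calc _ ≤ k * (P.filter (fun y => dist e.1 y ≤ β)).card := this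
        _ ≤ k * h := Nat.mul_le_mul_left _ (hh _ (hSmem e he).1)
        _ = h * k := mul_comm _ _
  have hG : G.card ≤ (2 * (k * k)) * (far P d).card := by
    let g : (EuclideanSpace ℝ (Fin 2) × EuclideanSpace ℝ (Fin 2)) ×
        (EuclideanSpace ℝ (Fin 2) × EuclideanSpace ℝ (Fin 2)) →
        EuclideanSpace ℝ (Fin 2) × EuclideanSpace ℝ (Fin 2) := fun p =>
      if d < dist p.1.1 p.2.2 then (p.1.1, p.2.2) else (p.2.1, p.1.2)
    apply Finset.card_le_mul_card_image_of_maps_to (f := g)
    · rintro ⟨e, e'⟩ hp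
      simp only [G, Finset.mem_filter, Finset.mem_product] at hp
      obtain ⟨⟨he, he'⟩, hβ⟩ := hp
      obtain ⟨a1, a2, a3⟩ := hSmem e he
      obtain ⟨b1, b2, b3⟩ := hSmem e' he'
      have hd0 : 0 ≤ d := a3 ▸ dist_nonneg
      have key := cross_pair e.1 e'.1 (e.2 - e.1) (e'.2 - e'.1) d
        (by rw [← dist_eq_norm, dist_comm]; exact a3)
        (by rw [← dist_eq_norm, dist_comm]; exact b3)
        (lt_of_le_of_lt (hSβ e he e' he') (by rw [← dist_eq_norm, dist_comm]; exact hβ))
      rw [add_sub_cancel, add_sub_cancel, ← dist_eq_norm, ← dist_eq_norm] at key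
      have hmk : ∀ p q : EuclideanSpace ℝ (Fin 2), p ∈ P → q ∈ P → d < dist p q →
          (p, q) ∈ far P d := by
        intro p q hp hq hpq
        simp only [far, Finset.mem_filter, Finset.mem_offDiag]
        refine ⟨⟨hp, hq, ?_⟩, hpq⟩
        intro h
        rw [h, dist_self] at hpq
        linarith
      by_cases hc : d < dist e.1 e'.2
      · have : g (e, e') = (e.1, e'.2) := by simp only [g, hc, if_true]
        rw [this]
        exact hmk _ _ a1 b2 hc
      · have : g (e, e') = (e'.1, e.2) := by simp only [g, hc, if_false]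
        rw [this]
        refine hmk _ _ b1 a2 ?_
        rcases key with h | h
        · exact absurd (by rw [dist_comm]; exact h) hc
        · rw [dist_comm]; exact h
    · rintro ⟨p, q⟩ hpq
      simp only [far, Finset.mem_filter, Finset.mem_offDiag] at hpq
      obtain ⟨⟨hpP, hqP, _⟩, _⟩ := hpq
      -- the fibre
      let out := P.filter (fun y => dist p y = d)
      let inn := P.filter (fun y => dist q y = d)
      have hsub : (G.filter (fun a => g a = (p, q))) ⊆
          ((out ×ˢ inn).image (fun t => ((p, t.1), (t.2, q)))) ∪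
          ((inn ×ˢ out).image (fun t => ((t.1, q), (p, t.2)))) := by
        rintro ⟨⟨e1, e2⟩, ⟨f1, f2⟩⟩ ha
        simp only [G, Finset.mem_filter, Finset.mem_product] at ha
        obtain ⟨⟨⟨he, hf⟩, _⟩, hg⟩ := ha
        obtain ⟨a1, a2, a3⟩ := hSmem _ he
        obtain ⟨b1, b2, b3⟩ := hSmem _ hf
        simp only at a1 a2 a3 b1 b2 b3
        simp only [g] at hg
        rw [Finset.mem_union, Finset.mem_image, Finset.mem_image]
        split_ifs at hg with hc
        · left
          rw [Prod.mk.injEq] at hg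
          obtain ⟨rfl, rfl⟩ := hg
          refine ⟨(e2, f1), ?_, rfl⟩
          simp only [out, inn, Finset.mem_product, Finset.mem_filter]
          exact ⟨⟨a2, a3⟩, ⟨b1, by rw [dist_comm]; exact b3⟩⟩
        · right
          rw [Prod.mk.injEq] at hg
          obtain ⟨rfl, rfl⟩ := hg
          refine ⟨(e1, f2), ?_, rfl⟩
          simp only [out, inn, Finset.mem_product, Finset.mem_filter]
          exact ⟨⟨a1, by rw [dist_comm]; exact a3⟩, ⟨b2, b3⟩⟩
      calc (G.filter (fun a => g a = (p, q))).card ≤ _ := Finset.card_le_card hsub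
        _ ≤ _ := Finset.card_union_le _ _
        _ ≤ (out ×ˢ inn).card + (inn ×ˢ out).card :=
            Nat.add_le_add Finset.card_image_le Finset.card_image_le
        _ ≤ k * k + k * k := by
            rw [Finset.card_product, Finset.card_product]
            exact Nat.add_le_add (Nat.mul_le_mul (hk p hpP) (hk q hqP))
              (Nat.mul_le_mul (hk q hqP) (hk p hpP))
        _ = 2 * (k * k) := by ring
  rw [hsplit]
  calc G.card + Bd.card ≤ (2 * (k * k)) * (far P d).card + (h * k) * S.card :=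
        Nat.add_le_add hG hB
    _ = _ := by ring

end Pool.Agent.Helper85.LowMult
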